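import Pool.Agent.Helper1.Stab.T.Theta

/-! Auxiliary lemmas for PS5 and PS6 of project T. -/

open CategoryTheory Topology Filter Set Opposite

noncomputable section

namespace Pool.Agent.Helper1.Stab

open Pool.Agent.Helper63.Stab (jh)


theorem Good.ltens38 {R : Biv} {p : ∀ {K Z : LC}, R.Hom K Z → Prop} (hp : Good R p) {K L : LC}
    (Z : LC) (x : R.Hom K L) (h : p x) : p (R.ltens Z x) :=
  hp.comp _ _ (hp.J _) (hp.comp _ _ (hp.tens _ _ h) (hp.J _))

theorem Good.bb38 {R : Biv} {p : ∀ {K Z : LC}, R.Hom K Z → Prop} (hp : Good R p) (o : Orient R)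
    (S S' : Type) [Fintype S] [Fintype S'] (hu : p (o.u S)) (hu' : p (o.u S')) (i j : ℕ)
    (hi : i < Fintype.card S) (hj : j < Fintype.card S') : p (o.bb S S' i j) :=
  hp.comp _ _ (hp.tens _ _ (hp.b o S hu i hi)) (hp.ltens38 _ _ (hp.b o S' hu' j hj))

theorem Good.zero38 {R : Biv} {p : ∀ {K Z : LC}, R.Hom K Z → Prop} (hp : Good R p) (K L : LC) :
    p (0 : R.Hom K L) := by
  rw [← R.J_zero]
  exact hp.J _

theorem Good.nsmul38 {R : Biv} {p : ∀ {K Z : LC}, R.Hom K Z → Prop} (hp : Good R p) {K L : LC}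
    (x : R.Hom K L) (h : p x) (n : ℕ) : p (n • x) := by
  induction n with
  | zero => rw [zero_smul]; exact hp.zero38 K L
  | succ n ih => rw [succ_nsmul]; exact hp.add _ _ ih h

theorem Good.zsmul38 {R : Biv} {p : ∀ {K Z : LC}, R.Hom K Z → Prop} (hp : Good R p) {K L : LC}
    (x : R.Hom K L) (h : p x) (n : ℤ) : p (n • x) := by
  rcases n with n | n
  · have e : (Int.ofNat n) • x = n • x := natCast_zsmul x n
    rw [e]
    exact hp.nsmul38 x h n
  · rw [negSucc_zsmul]
    exact hp.neg _ (hp.nsmul38 x h _)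

theorem Biv.comp_zsmul38 (R : Biv) {K L M : LC} (x : R.Hom K L) (y : R.Hom L M) (n : ℤ) :
    R.comp x (n • y) = n • R.comp x y :=
  (AddMonoidHom.mk' (fun y => R.comp x y) (fun y y' => R.comp_add x y y')).map_zsmul n y

theorem Biv.zsmul_comp38 (R : Biv) {K L M : LC} (x : R.Hom K L) (y : R.Hom L M) (n : ℤ) :
    R.comp (n • x) y = n • R.comp x y :=
  (AddMonoidHom.mk' (fun x => R.comp x y) (fun x x' => R.add_comp x x' y)).map_zsmul n x

theorem Biv.comp_nsmul38 (R : Biv) {K L M : LC} (x : R.Hom K L) (y : R.Hom L M) (n : ℕ) :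
    R.comp x (n • y) = n • R.comp x y :=
  (AddMonoidHom.mk' (fun y => R.comp x y) (fun y y' => R.comp_add x y y')).map_nsmul n y

theorem Biv.nsmul_comp38 (R : Biv) {K L M : LC} (x : R.Hom K L) (y : R.Hom L M) (n : ℕ) :
    R.comp (n • x) y = n • R.comp x y :=
  (AddMonoidHom.mk' (fun x => R.comp x y) (fun x x' => R.add_comp x x' y)).map_nsmul n x

theorem BivHom.nsmul38 {R T : Biv} (F : BivHom R T) {K L : LC} (x : R.Hom K L) (n : ℕ) :
    F.F (n • x) = n • F.F x :=
  (AddMonoidHom.mk' (fun x : R.Hom K L => F.F x) (fun x y => F.add x y)).map_nsmul n x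

theorem BivHom.zsmul38 {R T : Biv} (F : BivHom R T) {K L : LC} (x : R.Hom K L) (n : ℤ) :
    F.F (n • x) = n • F.F x :=
  (AddMonoidHom.mk' (fun x : R.Hom K L => F.F x) (fun x y => F.add x y)).map_zsmul n x

theorem Orient.bb_xt38 {R : Biv} (o : Orient R) (S S' : Type) [Fintype S] [Fintype S']
    (i j m : ℕ) (h : i + j = m) (hi : Fintype.card S = i + 1)
    (hj : Fintype.card S' = j + 1) (s : S) (s' : S') (t : R.Hom (LC.PP S S') LC.point)
    (ht : R.comp (R.J (PMap.ofPoint (K := LC.PP S S') (Pr.line s, Pr.line s'))) t =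
      R.J (PMap.id LC.point)) :
    R.comp (o.bb S S' i j) (R.comp (R.J (graph (X := LC.PP S S') (L := LC.PP S S')
      (fun x => x) continuous_id)) (R.comp (R.act t (LC.PP S S')) (o.xt S S' m))) =
      (m.choose i) • R.J (PMap.ofHomeo ((CnAdd i j).trans (CnCast h))) := by
  subst h
  exact o.bb_xt S S' i j hi hj s s' t ht

end Pool.Agent.Helper1.Stab
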